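import Mathlib

/-!
The infinite product `(1 - 1/3) (1 - 1/27) (1 - 1/243) ⋯` (after `Pool.Agent.Y948.CQ.C2A`).
-/

set_option autoImplicit false

open Finset Filter

namespace Pool.Agent.Y528.XK

theorem c9_main (c : ℝ) (hc : c = ∏' i : ℕ, (1 - (1 / 3 : ℝ) ^ (2 * i + 1))) :
    (∀ n : ℕ, |∏ i ∈ range n, (1 - (1 / 3 : ℝ) ^ (2 * i + 1)) - c| ≤ (1 / 9 : ℝ) ^ n) ∧
    0 < c ∧ c < 1 ∧ 0.639 < c ∧ c < 0.6391 := by
  set P : ℕ → ℝ := fun n => ∏ i ∈ range n, (1 - (1 / 3 : ℝ) ^ (2 * i + 1)) with hP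
  have hpow : ∀ i : ℕ, 0 < (1 / 9 : ℝ) ^ i ∧ (1 / 9 : ℝ) ^ i ≤ 1 := fun i =>
    ⟨by positivity, pow_le_one₀ (by norm_num) (by norm_num)⟩
  have he : ∀ i : ℕ, (1 / 3 : ℝ) ^ (2 * i + 1) = 1 / 3 * (1 / 9 : ℝ) ^ i := by
    intro i
    rw [pow_succ, pow_mul]
    norm_num
    ring
  have hsum : Summable (fun i : ℕ => (1 / 3 : ℝ) ^ (2 * i + 1)) := by
    simp_rw [he]
    exact (summable_geometric_of_lt_one (by norm_num) (by norm_num)).mul_left _
  have hmul : Multipliable (fun i : ℕ => 1 - (1 / 3 : ℝ) ^ (2 * i + 1)) := by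
    have := multipliable_one_add_of_summable (f := fun i : ℕ => -(1 / 3 : ℝ) ^ (2 * i + 1))
      (by simpa [norm_neg, norm_pow] using hsum)
    simpa [sub_eq_add_neg] using this
  have hlim : Tendsto P atTop (nhds c) := by
    rw [hc]; exact hmul.hasProd.tendsto_prod_nat
  have h0 : ∀ n, 0 ≤ P n ∧ P n ≤ 1 := by
    intro n
    refine ⟨Finset.prod_nonneg fun i _ => ?_, Finset.prod_le_one (fun i _ => ?_) fun i _ => ?_⟩
    · rw [he]; linarith [(hpow i).2]
    · rw [he]; linarith [(hpow i).2]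
    · rw [he]; linarith [(hpow i).1]
  have hsucc : ∀ n, P (n + 1) = P n * (1 - 1 / 3 * (1 / 9 : ℝ) ^ n) := by
    intro n; simp only [hP]; rw [Finset.prod_range_succ, he]
  have hanti : Antitone P := by
    apply antitone_nat_of_succ_le
    intro n
    rw [hsucc]
    nlinarith [(h0 n).1, (hpow n).1]
  have hmono : Monotone (fun n => P n - 3 / 8 * (1 / 9 : ℝ) ^ n) := by
    apply monotone_nat_of_le_succ
    intro n
    rw [hsucc]
    have e : (1 / 9 : ℝ) ^ (n + 1) = 1 / 9 * (1 / 9 : ℝ) ^ n := by rw [pow_succ]; ring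
    rw [e]
    have h1 := (hpow n).1
    have h2 := (h0 n).2
    nlinarith [mul_nonneg h1.le (sub_nonneg.mpr h2)]
  have hlim2 : Tendsto (fun n => P n - 3 / 8 * (1 / 9 : ℝ) ^ n) atTop (nhds c) := by
    have h1 : Tendsto (fun n : ℕ => (1 / 9 : ℝ) ^ n) atTop (nhds 0) :=
      tendsto_pow_atTop_nhds_zero_of_lt_one (by norm_num) (by norm_num)
    have := hlim.sub (h1.const_mul (3 / 8))
    simpa using this
  have hle : ∀ n, c ≤ P n := fun n => hanti.le_of_tendsto hlim n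
  have hge : ∀ n, P n - 3 / 8 * (1 / 9 : ℝ) ^ n ≤ c := fun n => hmono.ge_of_tendsto hlim2 n
  have hlo : (0.639 : ℝ) < c := by
    refine lt_of_lt_of_le ?_ (hge 7)
    simp only [hP, Finset.prod_range_succ, Finset.prod_range_zero]
    norm_num
  have hup : c < (0.6391 : ℝ) := by
    refine (hle 7).trans_lt ?_
    simp only [hP, Finset.prod_range_succ, Finset.prod_range_zero]
    norm_num
  refine ⟨fun n => ?_, by linarith, by linarith, hlo, hup⟩
  rw [abs_le]
  have := (hpow n).1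
  constructor <;> linarith [hle n, hge n]

end Pool.Agent.Y528.XK
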