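import Pool.Agent.Y703.XK.Stm
import Pool.Agent.Y528.XK.C9A

/-!
Job XK-C9.
-/

set_option autoImplicit false

namespace Pool.Agent.Y528.XK

theorem t_C9 : Pool.Agent.Y703.XK.S_C9 := c9_main _ rfl

end Pool.Agent.Y528.XK
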